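import Pool.Agent.helper91.SI.Spec3

/-!
# Row NM3 of project SI: both vertices of the pair outside the 5-cycle is impossible
-/

set_option autoImplicit false

namespace Pool.Agent.helper91.SI

open Pool.Agent.helper20.IG (IsIndepDom IsISet iGraph)

/-- Every time different from `a` and `b` is some `ρ i`. -/
theorem NM3_surj (ρ : ZMod 5 → ZMod 7) (a b : ZMod 7) (hinj : Function.Injective ρ) (hab : a ≠ b)
    (h : ∀ i, ρ i ≠ a ∧ ρ i ≠ b) (t : ZMod 7) (hta : t ≠ a) (htb : t ≠ b) : ∃ i, ρ i = t := by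
  by_contra hcon
  push Not at hcon
  have hsub : Finset.univ.image ρ ⊆ ((Finset.univ.erase a).erase b).erase t := by
    intro x hx
    obtain ⟨i, -, rfl⟩ := Finset.mem_image.mp hx
    simp [hcon i, (h i).1, (h i).2]
  have h1 := Finset.card_le_card hsub
  rw [Finset.card_image_of_injective _ hinj, Finset.card_erase_of_mem (by simp [hta, htb]),
    Finset.card_erase_of_mem (by simp [hab.symm]), Finset.card_erase_of_mem (by simp)] at h1
  simp [ZMod.card] at h1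

/-- The core of the argument, with explicit sets. -/
theorem NM3_core {V : Type} [DecidableEq V] (G : SimpleGraph V) (hT : NoTri G)
    (h4 : NoC4 (iGraph G)) (A A1 A2 A3 A4 : Finset V) (r r' c0 c1 c2 c3 c4 : V)
    (hA : IsISet G A) (hA1 : IsISet G A1) (hA2 : IsISet G A2)
    (hA4 : IsISet G A4) (e1 : A1 = insert r' (A.erase r)) (e2 : A2 = insert c3 (A1.erase c2))
    (e3 : A3 = insert c1 (A2.erase c0)) (e4 : A4 = insert r (A3.erase r'))
    (hr : r ∈ A) (hr' : r' ∉ A) (h0 : c0 ∈ A) (h2 : c2 ∈ A) (h3 : c3 ∉ A)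
    (hrr : G.Adj r r') (h01 : G.Adj c0 c1) (h12 : G.Adj c1 c2) (h23 : G.Adj c2 c3)
    (h34 : G.Adj c3 c4) (h40 : G.Adj c4 c0)
    (n0r : c0 ≠ r) (n2r : c2 ≠ r) (n3r : c3 ≠ r) (n3r' : c3 ≠ r')
    (n02 : c0 ≠ c2) (n03 : c0 ≠ c3) : False := by
  have n2r' : c2 ≠ r' := fun h => hr' (h ▸ h2)
  have nrr : r ≠ r' := hrr.ne
  set X := insert c3 (A.erase c2) with hX
  have hrX : r ∈ X := by simp [hX, n2r.symm, hr]
  have h0X : c0 ∈ X := by simp [hX, n02, h0]
  have h3X : c3 ∈ X := by simp [hX]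
  have hAX : ∀ u ∈ A, u ≠ c2 → u ∈ X := fun u hu hne => by simp [hX, hne, hu]
  -- c3 is not adjacent to the members of A except c2
  have h3A4 : c3 ∈ A4 := by
    rw [e4, e3, e2]
    simp [n3r', n03.symm]
  have hind3 : ∀ u ∈ A, u ≠ c2 → ¬ G.Adj c3 u := by
    intro u hu hne hadj
    by_cases hu0 : u = c0
    · subst hu0
      exact hT c3 c4 u h34 h40 hadj
    · by_cases hur : u = r
      · have : u ∈ A4 := by rw [e4, hur]; simp
        exact hA4.1.1 c3 h3A4 u this hadj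
      · have hur' : u ≠ r' := fun h => hr' (h ▸ hu)
        have : u ∈ A4 := by
          rw [e4, e3, e2, e1]
          simp [hur, hu0, hne, hur', hu]
        exact hA4.1.1 c3 h3A4 u this hadj
  have hXind : ∀ u ∈ X, ∀ w ∈ X, ¬ G.Adj u w := by
    intro u hu w hw hadj
    rw [hX] at hu hw
    rcases Finset.mem_insert.mp hu with hu | hu <;> rcases Finset.mem_insert.mp hw with hw | hw
    · rw [hu, hw] at hadj
      exact G.loopless.irrefl _ hadj
    · rw [hu] at hadj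
      have := Finset.mem_erase.mp hw
      exact hind3 w this.2 this.1 hadj
    · rw [hw] at hadj
      have := Finset.mem_erase.mp hu
      exact hind3 u this.2 this.1 hadj.symm
    · exact hA.1.1 u (Finset.mem_of_mem_erase hu) w (Finset.mem_of_mem_erase hw) hadj
  have hXcard : X.card = A.card := by
    rw [hX, Finset.card_insert_of_notMem (by simp [h3]), Finset.card_erase_of_mem h2]
    have : 0 < A.card := Finset.card_pos.mpr ⟨c2, h2⟩
    omega
  by_cases hdom : ∀ y, y ∉ X → ∃ u ∈ X, G.Adj u y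
  · -- X is an i-set: a 4-cycle
    have hXset : IsISet G X := ⟨⟨hXind, hdom⟩, fun T hTT => by rw [hXcard]; exact hA.2 T hTT⟩
    have hrA1 : r ∉ A1 := by rw [e1]; simp [nrr]
    have hrA2 : r ∉ A2 := by rw [e2]; simp [n3r.symm, hrA1]
    have hr'A1 : r' ∈ A1 := by rw [e1]; simp
    have hr'A2 : r' ∈ A2 := by rw [e2]; simp [n2r'.symm, hr'A1]
    have hr'X : r' ∉ X := by simp [hX, n3r'.symm, hr']
    have h2A1 : c2 ∈ A1 := by rw [e1]; simp [n2r, h2]
    have h3A2 : c3 ∈ A2 := by rw [e2]; simp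
    have h2X : c2 ∉ X := by simp [hX, h23.ne]
    have h2A2 : c2 ∉ A2 := by rw [e2]; simp [h23.ne]
    have neA : A ≠ A1 := fun h => hrA1 (h ▸ hr)
    have neA12 : A1 ≠ A2 := fun h => h2A2 (h ▸ h2A1)
    have neA2X : A2 ≠ X := fun h => hr'X (h ▸ hr'A2)
    have neXA : X ≠ A := fun h => h2X (h.symm ▸ h2)
    have adj1 : (iGraph G).Adj ⟨A, hA⟩ ⟨A1, hA1⟩ :=
      ⟨fun h => neA (congrArg Subtype.val h), r, hr, r', hr'A1, hrr, e1⟩
    have adj2 : (iGraph G).Adj ⟨A1, hA1⟩ ⟨A2, hA2⟩ :=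
      ⟨fun h => neA12 (congrArg Subtype.val h), c2, h2A1, c3, h3A2, h23, e2⟩
    have adj3 : (iGraph G).Adj ⟨A2, hA2⟩ ⟨X, hXset⟩ := by
      refine ⟨fun h => neA2X (congrArg Subtype.val h), r', hr'A2, r, hrX, hrr.symm, ?_⟩
      change X = insert r (A2.erase r')
      rw [e2, e1, hX]
      ext y
      simp only [Finset.mem_insert, Finset.mem_erase]
      constructor
      · rintro (rfl | ⟨hy2, hyA⟩)
        · exact Or.inr ⟨n3r', Or.inl rfl⟩
        · by_cases hyr : y = r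
          · exact Or.inl hyr
          · exact Or.inr ⟨fun h => hr' (h ▸ hyA), Or.inr ⟨hy2, Or.inr ⟨hyr, hyA⟩⟩⟩
      · rintro (rfl | ⟨hyr', hy | ⟨hy2, hy | ⟨hyr, hyA⟩⟩⟩)
        · exact Or.inr ⟨n2r.symm, hr⟩
        · exact Or.inl hy
        · exact absurd hy hyr'
        · exact Or.inr ⟨hy2, hyA⟩
    have adj4 : (iGraph G).Adj ⟨X, hXset⟩ ⟨A, hA⟩ := by
      refine ⟨fun h => neXA (congrArg Subtype.val h), c3, h3X, c2, h2, h23.symm, ?_⟩
      change A = insert c2 (X.erase c3)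
      rw [hX, Finset.erase_insert (by simp [h3]), Finset.insert_erase h2]
    refine h4 _ _ _ _ adj1 adj2 adj3 adj4 ?_ ?_
    · intro h
      have h' : A = A2 := congrArg Subtype.val h
      exact hrA2 (h' ▸ hr)
    · intro h
      have h' : A1 = X := congrArg Subtype.val h
      exact hr'X (h' ▸ hr'A1)
  · push Not at hdom
    obtain ⟨y, hyX, hy⟩ := hdom
    have hy2 : y ≠ c2 := fun h => hy c3 h3X (h ▸ h23.symm)
    have hyA : y ∉ A := fun h => hyX (hAX y h hy2)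
    have h2y : G.Adj c2 y := by
      obtain ⟨u, hu, huy⟩ := hA.1.2 y hyA
      by_cases hu2 : u = c2
      · exact hu2 ▸ huy
      · exact absurd huy (hy u (hAX u hu hu2))
    have hyr : y ≠ r := fun h => hyX (h ▸ hrX)
    have hy3 : y ≠ c3 := fun h => hyX (h ▸ h3X)
    have hy1 : y ≠ c1 := fun h => hy c0 h0X (h ▸ h01)
    have hyA4 : y ∉ A4 := by
      rw [e4, e3, e2, e1]
      simp only [Finset.mem_insert, Finset.mem_erase, not_or, not_and]
      refine ⟨hyr, fun hyr' => ⟨hy1, fun _ => ⟨hy3, fun _ => ⟨hyr', fun _ => hyA⟩⟩⟩⟩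
    obtain ⟨w, hw, hwy⟩ := hA4.1.2 y hyA4
    rw [e4, e3, e2, e1] at hw
    simp only [Finset.mem_insert, Finset.mem_erase] at hw
    rcases hw with hw | ⟨hwr', hw | ⟨hw0, hw | ⟨hw2, hw | ⟨hwr, hwA⟩⟩⟩⟩
    · exact hy w (hw ▸ hrX) hwy
    · rw [hw] at hwy
      exact hT c1 c2 y h12 h2y hwy
    · exact hy w (hw ▸ h3X) hwy
    · exact hwr' hw
    · exact hy w (hAX w hwA hw2) hwy

/-- Row NM3. -/
theorem NM3 (_hIAD : IAD_stmt) (hNMC : NMC_stmt) : NM3_stmt := by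
  intro V _ G S s v q r r' a b ρ hT h4 hM hb hr hr'
  obtain ⟨j, hj⟩ := hNMC V G S s v q r r' a b ρ hT h4 hM a
  obtain ⟨⟨hS, hSinj, hW⟩, hqinj, hqadj, hρinj, hab, hρab, hρ, hsa, hva, hsb, hvb⟩ := hM
  have z7 := (by decide : ∀ a : ZMod 7, a + 1 ≠ a ∧ a + 1 ≠ a + 3 ∧ a + 2 ≠ a ∧ a + 2 ≠ a + 3) a
  have z5 := (by decide : ∀ j : ZMod 5, j + 4 + 1 = j ∧ j + 1 + 1 = j + 2 ∧ j + 2 + 1 = j + 3 ∧
    j + 3 + 1 = j + 4 ∧ j ≠ j + 2 ∧ j ≠ j + 3 ∧ j + 2 ≠ j ∧ j + 3 ≠ j ∧ j + 3 ≠ j + 2 ∧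
    j + 1 ≠ j ∧ j + 1 ≠ j + 2 ∧ j + 4 ≠ j) j
  obtain ⟨z50, z51, z52, z53, m02, m03, m20, m30, m32, m10, m12, m40⟩ := z5
  -- slide at a
  obtain ⟨wa1, wa2, wa3, wa4⟩ := hW a
  rw [hsa, hva] at wa4
  rw [hsa] at wa1 wa3
  rw [hva] at wa2 wa3
  -- membership in S (a+1)
  have mem1 : ∀ i, q i ∈ S (a + 1) ↔ (i = j ∨ i = j + 2) := by
    intro i
    rw [wa4, ← hj i]
    simp [hr i, hr' i]
  -- slide at a+1
  obtain ⟨i1, hi1⟩ := NM3_surj ρ a b hρinj hab hρab (a + 1) z7.1 (by rw [hb]; exact z7.2.1)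
  obtain ⟨wb1, wb2, wb3, wb4⟩ := hW (a + 1)
  have hs1 : s (a + 1) = q i1 := by rw [← hi1]; exact (hρ i1).1
  have hv1 : v (a + 1) = q (i1 + 1) := by rw [← hi1]; exact (hρ i1).2
  rw [hs1, hv1] at wb4
  rw [hs1] at wb1
  have e12 : a + 1 + 1 = a + 2 := by ring
  rw [e12] at wb4
  have hi1' : i1 = j + 2 := by
    rcases (mem1 i1).mp wb1 with h | h
    · exfalso
      rw [h] at wb4
      have c1m : q (j + 1) ∈ S (a + 2) := by rw [wb4]; simp
      have c2m : q (j + 2) ∈ S (a + 2) := by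
        rw [wb4]
        have : q (j + 2) ∈ S (a + 1) := (mem1 _).mpr (Or.inr rfl)
        exact Finset.mem_insert_of_mem (Finset.mem_erase.mpr ⟨fun h' => m20 (hqinj h'), this⟩)
      have hadj := hqadj (j + 1)
      rw [z51] at hadj
      exact (hS (a + 2)).1.1 _ c1m _ c2m hadj
    · exact h
  rw [hi1', z52] at wb4
  -- membership in S (a+2)
  have mem2 : ∀ i, q i ∈ S (a + 2) ↔ (i = j ∨ i = j + 3) := by
    intro i
    rw [wb4]
    simp only [Finset.mem_insert, Finset.mem_erase, mem1 i, hqinj.eq_iff, ne_eq]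
    constructor
    · rintro (h | ⟨h1, h | h⟩)
      · exact Or.inr h
      · exact Or.inl h
      · exact absurd h h1
    · rintro (h | h)
      · exact Or.inr ⟨by rw [h]; exact m02, Or.inl h⟩
      · exact Or.inl h
  -- slide at a+2
  obtain ⟨i2, hi2⟩ := NM3_surj ρ a b hρinj hab hρab (a + 2) z7.2.2.1 (by rw [hb]; exact z7.2.2.2)
  obtain ⟨wc1, wc2, wc3, wc4⟩ := hW (a + 2)
  have hs2 : s (a + 2) = q i2 := by rw [← hi2]; exact (hρ i2).1
  have hv2 : v (a + 2) = q (i2 + 1) := by rw [← hi2]; exact (hρ i2).2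
  rw [hs2, hv2] at wc4
  rw [hs2] at wc1
  have e23 : a + 2 + 1 = a + 3 := by ring
  rw [e23] at wc4
  have hi2' : i2 = j := by
    rcases (mem2 i2).mp wc1 with h | h
    · exact h
    · exfalso
      rw [h, z53] at wc4
      have c4m : q (j + 4) ∈ S (a + 3) := by rw [wc4]; simp
      have c0m : q j ∈ S (a + 3) := by
        rw [wc4]
        have : q j ∈ S (a + 2) := (mem2 _).mpr (Or.inl rfl)
        exact Finset.mem_insert_of_mem (Finset.mem_erase.mpr ⟨fun h' => m03 (hqinj h'), this⟩)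
      have hadj := hqadj (j + 4)
      rw [z50] at hadj
      exact (hS (a + 3)).1.1 _ c4m _ c0m hadj
  rw [hi2'] at wc4
  -- slide at b = a + 3
  obtain ⟨wd1, wd2, wd3, wd4⟩ := hW b
  rw [hsb, hvb, hb] at wd4
  have a01 := hqadj j
  have a12 := hqadj (j + 1)
  have a23 := hqadj (j + 2)
  have a34 := hqadj (j + 3)
  have a40 := hqadj (j + 4)
  rw [z51] at a12
  rw [z52] at a23
  rw [z53] at a34
  rw [z50] at a40
  refine NM3_core G hT h4 (S a) (S (a + 1)) (S (a + 2)) (S (a + 3)) (S (a + 3 + 1)) r r'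
    (q j) (q (j + 1)) (q (j + 2)) (q (j + 3)) (q (j + 4)) (hS _) (hS _) (hS _) (hS _)
    wa4 wb4 wc4 wd4 wa1 wa2 ((hj j).mpr (Or.inl rfl)) ((hj (j + 2)).mpr (Or.inr rfl)) ?_
    wa3 a01 a12 a23 a34 a40 (hr _) (hr _) (hr _) (hr' _) ?_ ?_
  · intro h
    rcases (hj _).mp h with h | h
    · exact m30 h
    · exact m32 h
  · exact fun h => m02 (hqinj h)
  · exact fun h => m03 (hqinj h)

end Pool.Agent.helper91.SI
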